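import Pool.Agent.Helper74.WB.St

set_option autoImplicit false

namespace Pool.Agent.Helper81.WB

open Pool.Agent.Helper74 Pool.Agent.Helper74.WB

variable {W : Type}

theorem com_ap_pos (a : Lb W) (σ : List (Lb W × Bool)) (h : ∀ x ∈ σ.head?, x.2 = true) :
    ap (a, true) σ = (a, true) :: σ := by
  refine ap_push' _ _ fun y hy => ?_
  have h1 := h y hy
  rintro rfl
  simp [iv] at h1

theorem com_red (σ : List (Lb W × Bool)) (h : ∀ x ∈ σ, x.2 = true) : Red σ := by
  induction σ with
  | nil => trivial
  | cons a σ ih =>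
    refine red_cons _ _ (ih fun x hx => h x (by simp [hx])) fun y hy => ?_
    have h1 : y.2 = true := h y (List.mem_cons_of_mem _ (List.mem_of_mem_head? hy))
    have h2 := h a (by simp)
    rintro rfl
    simp only [iv, h2] at h1
    simp at h1

theorem com_cfg (s : List W) : ∀ x ∈ cfg s, x.2 = true := by
  intro x hx
  simp only [cfg, List.mem_map] at hx
  obtain ⟨X, _, rfl⟩ := hx
  rfl

theorem com_bcfg (i : Bool) (s : List W) : ∀ x ∈ ((.b i, true) : Lb W × Bool) :: cfg s,
    x.2 = true := by
  intro x hx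
  rcases List.mem_cons.1 hx with rfl | hx
  · rfl
  · exact com_cfg s x hx

theorem com_hd (s : List W) : ∀ x ∈ (cfg s).head?, x.2 = true := fun x hx =>
  com_cfg s x (List.mem_of_mem_head? hx)

theorem com_rd (m s : List W) :
    rd (m.map fun X => ((.z X, true) : Lb W × Bool)) (cfg s) = cfg (m.reverse ++ s) := by
  induction m generalizing s with
  | nil => rfl
  | cons Y m ih =>
    rw [List.map_cons, rd_cons, com_ap_pos _ _ (com_hd s)]
    have : ((.z Y, true) : Lb W × Bool) :: cfg s = cfg (Y :: s) := rfl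
    rw [this, ih]
    simp

theorem com_gG (X : W) (γ s : List W) :
    rd (gG (X, γ)) ((.b false, true) :: cfg (X :: s)) = (.b true, true) :: cfg (γ ++ s) := by
  unfold gG
  have h1 := ap_cancel' (Λ := Lb W) (.b false, true) (cfg (X :: s))
  have h2 := ap_cancel' (Λ := Lb W) (.z X, true) (cfg s)
  simp only [iv, Bool.not_true] at h1 h2
  have e : cfg (X :: s) = (.z X, true) :: cfg s := rfl
  rw [rd_cons, h1, rd_cons, e]
  simp only
  rw [h2, rd_append, com_rd, List.reverse_reverse]
  show ap (Lb.b true, true) _ = _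
  rw [com_ap_pos _ _ (com_hd _)]

theorem com_skip (hGCO : StGCO) (l : List (W × List W)) (σ : List (Lb W × Bool)) (h : Red σ) :
    Gr (l.flatMap wg) σ σ := by
  induction l with
  | nil => rfl
  | cons g l ih =>
    rw [List.flatMap_cons, gr_append]
    exact ⟨σ, (hGCO W g σ h).1, ih⟩

theorem hCOM (hGCO : StGCO) : StCOM := by
  intro α W l s w h
  induction h with
  | nil => rfl
  | step a X γ s w hP _ ih =>
    rw [List.flatMap_cons, gr_append]
    refine ⟨_, ?_, ih⟩
    unfold blk
    rw [gr_mand, com_ap_pos _ _ (com_hd _), gr_append]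
    refine ⟨(.b true, true) :: cfg (γ ++ s), ?_, ?_⟩
    · obtain ⟨l₁, l₂, hl⟩ := List.append_of_mem hP
      rw [hl, List.flatMap_append, List.flatMap_cons, gr_append]
      have hr : Red (((.b false, true) : Lb W × Bool) :: cfg (X :: s)) :=
        com_red _ (com_bcfg _ _)
      refine ⟨_, com_skip hGCO l₁ _ hr, ?_⟩
      rw [gr_append]
      refine ⟨_, (hGCO W (X, γ) _ hr).2, ?_⟩
      rw [com_gG]
      exact com_skip hGCO l₂ _ (com_red _ (com_bcfg _ _))
    · rw [gr_mand, gr_nil]
      have h1 := ap_cancel' (Λ := Lb W) (.b true, true) (cfg (γ ++ s))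
      simpa only [iv, Bool.not_true] using h1

end Pool.Agent.Helper81.WB
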