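import Pool.Agent.Helper74.WB.St

set_option autoImplicit false

namespace Pool.Agent.Helper81.WB

open Pool.Agent.Helper74 Pool.Agent.Helper74.WB

theorem hGAD (hGWA : StGWA) (hGWB : StGWB) : StGAD := by
  intro W rk g σ τ hR hσ hF h
  unfold wg at h
  rw [gr_append] at h
  obtain ⟨ξ, h1, h2⟩ := h
  rw [gr_append] at h2
  obtain ⟨τ₁, h2, h3⟩ := h2
  rw [gr_opt, gr_nil, gr_nil] at h3
  have hM := hGWA W g σ ξ hF h1
  have hξ := red_gr _ _ _ hσ h1
  have hB := hGWB W rk g σ ξ τ₁ hR hσ hξ hF hM h2
  have four : ∀ (x : Lb W × Bool) (τ' : List (Lb W × Bool)), x = (.y g, false) ∨ x.1 = .t g →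
      Out g σ (x :: τ') := fun x τ' hx => Or.inr (Or.inr (Or.inr (Or.inl ⟨x, τ', rfl, hx⟩)))
  have five : ∀ (ρ τ' : List (Lb W × Bool)), (∀ x ∈ ρ, Pb x) →
      Out g σ (ρ ++ (.y g, true) :: τ') := fun ρ τ' hx =>
    Or.inr (Or.inr (Or.inr (Or.inr (Or.inl ⟨ρ, τ', rfl, hx⟩))))
  have pu : ∀ ρ : List (Lb W × Bool), (∀ y ∈ ρ.head?, y ≠ (.t g, false)) →
      Out g σ (ap (.t g, true) ρ) := by
    intro ρ hρ
    rw [ap_push' _ _ hρ]
    exact four _ _ (Or.inr rfl)
  rcases hB with rfl | rfl | ⟨τ', rfl⟩
  · rcases hM with rfl | ⟨τ', rfl⟩ | ⟨δ, rfl, hδ⟩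
    · rcases h3 with rfl | rfl
      · exact pu _ fun x hx => (hF x hx).2
      · exact Or.inl rfl
    · rcases h3 with rfl | rfl
      · refine pu _ fun x hx => ?_
        simp only [List.head?_cons, Option.mem_def, Option.some.injEq] at hx
        subst hx
        simp
      · exact four _ _ (Or.inl rfl)
    · rcases hδ with hδ | ⟨δ₀, rfl, hδ⟩
      · rcases h3 with rfl | rfl
        · refine pu _ fun x hx => ?_
          cases δ with
          | nil =>
            simp only [List.nil_append, List.head?_cons, Option.mem_def, Option.some.injEq] at hx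
            subst hx
            simp
          | cons y δ =>
            simp only [List.cons_append, List.head?_cons, Option.mem_def, Option.some.injEq] at hx
            subst hx
            rcases hδ y (by simp) with ⟨i, hi⟩ | ⟨X, hX⟩
            · rintro rfl
              simp at hi
            · rintro rfl
              simp at hX
        · exact five _ _ hδ
      · rcases h3 with rfl | rfl
        · have := ap_cancel' (Λ := Lb W) (.t g, false) (δ₀ ++ (.y g, true) :: σ)
          simp only [iv, Bool.not_false] at this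
          rw [List.cons_append, this]
          exact five _ _ hδ
        · exact four _ _ (Or.inr rfl)
  · have e : rd (gt g) σ = ap (.t g, false) (rd (gG g) σ) := by
      unfold gt
      rw [rd_append]
      rfl
    rcases h3 with rfl | rfl
    · have := ap_iv_ap (.t g, false) (rd (gG g) σ) (red_rd _ _ hσ)
      simp only [iv, Bool.not_false] at this
      rw [e, this]
      exact Or.inr (Or.inl rfl)
    · exact Or.inr (Or.inr (Or.inl rfl))
  · rcases h3 with rfl | rfl
    · have := ap_cancel' (Λ := Lb W) (.t g, false)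
        ((.b true, true) :: (cfg g.2 ++ (.z g.1, false) :: τ'))
      simp only [iv, Bool.not_false] at this
      rw [this]
      exact Or.inr (Or.inr (Or.inr (Or.inr (Or.inr ⟨τ', rfl⟩))))
    · exact four _ _ (Or.inr rfl)

end Pool.Agent.Helper81.WB
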